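import Pool.Agent.Work.MP_db9399_ot.Base
import Pool.Agent.Work.MP_db9399_lh_helper90.PEALL

/-!
# THEOREM OUT, block PEALL: the rounds of the colours `e1 y` (port of the block PEALL of LCH; all
reserve edges lie in the host `H`)
-/

set_option autoImplicit false

namespace Pool.Agent.Work.MP_db9399_ot.helper90.PEALL

open Finset Classical
open Pool.Agent.Work.MP_db9399_all (nb)
open Pool.Agent.Work.MP_db9399_dn (NB IsMat Tot)
open Pool.Agent.Work.MP_db9399_sc (cut Crit Conn Env Fam Rnd Hv)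
open Pool.Agent.Work.MP_db9399_bg (den cl LabP REnv Spr c3f c3 rs rs_symm eR HPre Ix mem_nb mem_cl
  mem_PN den_nonneg c3f_inj mem_c3)
open Pool.Agent.Work.MP_db9399_lc (BL)
open Pool.Agent.Work.MP_db9399_lh (Cr Lh ce su kp io sp pt cr cy rf rx rr tj ty inM rP rR np nr eP
  pr qr qe fq f0 ft Vq EndSX Vd UW VCol Rr Rf Jk Ub P0R PeR)
open Pool.Agent.Work.MP_db9399_lh.helper90.PEALL (pall NQ NQ_le NQ_ge Vk cell_le spl_le Rf_sub
  Rf_miss Rf_le nb_mono card_c3 card_kap DD DD_adj XX NB_Rf Vp mem_Vp renv one_part cut_mono)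

universe u

section
variable {V : Type u} [Fintype V] {l m r K K1 S k w W1 d D ν n : ℕ} {g gh gd ε0 σ c1 : ℝ}
  {G H : SimpleGraph V} {Gc : Fin n → SimpleGraph V} {lab : V → Lh l m r K K1 S}

/-- a weak form of `BL` for the host, without any condition on `n` -/
theorem bl0 {b : ℝ} (h : BH gh ε0 b H D) : BL 0 ε0 H D where
  deg := h.deg
  low := h.low
  bip S T _ _ := by
    have h1 : (0 : ℝ) * D * T.card = 0 := by ring
    rw [h1]
    exact Finset.sum_nonneg fun t _ => Nat.cast_nonneg _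
  nsc C _ := by
    have h1 : (0 : ℝ) * D * C.card = 0 := by ring
    rw [h1]
    exact Finset.sum_nonneg fun t _ => Nat.cast_nonneg _
  big := h.big

theorem DD_deg {UH : Finset V} {c0 tu : V → Fin k} {e : Ix m w → Fin k}
    {τ : Fin w → Option (ZMod 3)} {ι : Fin w → Option (Fin n)} {ρ : Fin w → ZMod 3}
    {e1 : Fin W1 → Fin k} {tp : V → ZMod 3}
    {c : V → Fin k} {wv : V → Fin k → V} {Nd M : Ix m w → SimpleGraph V}
    {O : Ix m w → Finset V} (hN : NDec ν H Gc UH lab τ ι Nd)
    (hP : P0R gd H D UH c0 tu lab e τ ρ e1 tp c wv Nd M O) (v : V) :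
    (nb (DD M) v).card ≤ 4 * (m * w) := by
  have hsub : nb (DD M) v ⊆ (univ.filter (fun x : Ix m w => (nb (M x) v).Nonempty)).biUnion
      (fun x => nb (M x) v) := by
    intro y hy
    rw [mem_nb, DD_adj] at hy
    obtain ⟨x, hx⟩ := hy
    rw [Finset.mem_biUnion]
    exact ⟨x, Finset.mem_filter.mpr ⟨Finset.mem_univ _, y, mem_nb.mpr hx⟩, mem_nb.mpr hx⟩
  have hidx : univ.filter (fun x : Ix m w => (nb (M x) v).Nonempty) ⊆
      univ.filter (fun x : Ix m w => ce (lab v) ∈ c3 x.1 x.2.1) ∪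
        univ.filter (fun x : Ix m w => x.1 = kp (lab v)) := by
    intro x hx
    obtain ⟨y, hy⟩ := (Finset.mem_filter.mp hx).2
    have h1 := (hP.le x _ _ (mem_nb.mp hy)).2
    unfold Ub Jk at h1
    rw [Finset.mem_filter, Finset.mem_filter] at h1
    rw [Finset.mem_union, Finset.mem_filter, Finset.mem_filter]
    rcases h1.2 with h2 | h2
    · exact Or.inl ⟨Finset.mem_univ _, h2.2.2.1⟩
    · right
      refine ⟨Finset.mem_univ _, ?_⟩
      by_contra hne
      exact h2.2.2.2.2 (hN.cov x v h2.2.1 h2.2.2.2.1 h2.2.2.1 (fun h => hne h.1.symm))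
  have h1 : (nb (DD M) v).card ≤ (univ.filter (fun x : Ix m w => (nb (M x) v).Nonempty)).card := by
    refine (Finset.card_le_card hsub).trans (Finset.card_biUnion_le.trans ?_)
    calc ∑ x ∈ univ.filter (fun x : Ix m w => (nb (M x) v).Nonempty), (nb (M x) v).card
        ≤ ∑ _x ∈ univ.filter (fun x : Ix m w => (nb (M x) v).Nonempty), 1 :=
          Finset.sum_le_sum fun x _ => hP.mat x v
      _ = _ := by simp
  have h2 := Finset.card_le_card hidx
  have h3 := Finset.card_union_le (univ.filter (fun x : Ix m w => ce (lab v) ∈ c3 x.1 x.2.1))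
    (univ.filter (fun x : Ix m w => x.1 = kp (lab v)))
  have h4 := card_c3 (w := w) (ce (lab v))
  have h5 := card_kap (w := w) (kp (lab v))
  omega

theorem XX_le {UH : Finset V} {c0 tu : V → Fin k} {EH : SimpleGraph V} {e : Ix m w → Fin k}
    {τ : Fin w → Option (ZMod 3)} {ι : Fin w → Option (Fin n)} {e1 : Fin W1 → Fin k}
    {sy : Fin W1 → Fin (K1 + 1) × Fin (K1 + 1)} {tp : V → ZMod 3} {c : V → Fin k}
    {wv : V → Fin k → V} {Nd M : Ix m w → SimpleGraph V} {Kk : Fin W1 → SimpleGraph V} {δ2 : ℝ}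
    (hHG : H ≤ G) (hB : BL g ε0 H D) (hLab : LabP H D σ c1 lab) (hH : HPre G UH c0 EH tu)
    (he1 : Function.Injective e1) (hU : UPar G H Gc D δ2 UH c0 tu lab e τ ι e1 sy tp c wv)
    (hL : Lft G H UH lab sy Nd M Kk) (y : Fin W1) (v : V) :
    ((nb H v ∩ XX UH c0 tu e τ e1 tp wv Kk (e1 y)).card : ℝ) ≤
      2 + δ2 * D + (2 * (D : ℝ) / (K1 + 1) + σ * D) := by
  have hnb : nb H v ⊆ nb G v := nb_mono hHG v
  have hsub : nb H v ∩ XX UH c0 tu e τ e1 tp wv Kk (e1 y) ⊆
      ((nb G v ∩ UH) ∪ (nb G v ∩ UW UH c0 tu e τ e1 tp wv (e1 y))) ∪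
        (nb H v ∩ univ.filter (fun x => sp (lab x) = (sy y).1 ∨
          sp (lab x) = (sy y).2)) := by
    intro x hx
    rw [Finset.mem_inter] at hx
    obtain ⟨hx1, hx2⟩ := hx
    unfold XX at hx2
    rw [Finset.mem_union, Finset.mem_union] at hx2
    rw [Finset.mem_union, Finset.mem_union, Finset.mem_inter, Finset.mem_inter,
      Finset.mem_inter]
    rcases hx2 with (h | h) | h
    · exact Or.inl (Or.inl ⟨hnb hx1, h⟩)
    · exact Or.inl (Or.inr ⟨hnb hx1, h⟩)
    · obtain ⟨y', hy', z, hz⟩ := (Finset.mem_filter.mp h).2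
      have hyy : y' = y := he1 hy'
      subst hyy
      have h1 := (hL.mem y' x z (mem_nb.mp hz)).2.2
      exact Or.inr ⟨hx1, Finset.mem_filter.mpr ⟨Finset.mem_univ _, h1⟩⟩
  have h1 := (Finset.card_le_card hsub).trans (Finset.card_union_le _ _)
  have h2 := Finset.card_union_le (nb G v ∩ UH) (nb G v ∩ UW UH c0 tu e τ e1 tp wv (e1 y))
  have h3 := hH.two v
  have h4 := hU.spr v (e1 y)
  have h5 := spl_le hB hLab (sy y).1 (sy y).2 v
  have h6 : ((nb H v ∩ XX UH c0 tu e τ e1 tp wv Kk (e1 y)).card : ℝ) ≤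
      2 + ((nb G v ∩ UW UH c0 tu e τ e1 tp wv (e1 y)).card : ℝ) +
        ((nb H v ∩ univ.filter (fun x => sp (lab x) = (sy y).1 ∨
          sp (lab x) = (sy y).2)).card : ℝ) := by
    have : (nb H v ∩ XX UH c0 tu e τ e1 tp wv Kk (e1 y)).card ≤
      2 + (nb G v ∩ UW UH c0 tu e τ e1 tp wv (e1 y)).card +
        (nb H v ∩ univ.filter (fun x => sp (lab x) = (sy y).1 ∨
          sp (lab x) = (sy y).2)).card := by omega
    exact_mod_cast this
  linarith

end

end Pool.Agent.Work.MP_db9399_ot.helper90.PEALL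

namespace Pool.Agent.Work.MP_db9399_ot.helper90

open Finset Classical
open Pool.Agent.Work.MP_db9399_all (nb)
open Pool.Agent.Work.MP_db9399_dn (NB IsMat Tot)
open Pool.Agent.Work.MP_db9399_sc (cut Crit Conn Env Fam Rnd Hv)
open Pool.Agent.Work.MP_db9399_bg (den cl LabP REnv Spr c3f c3 rs rs_symm eR HPre Ix mem_nb mem_cl
  mem_PN den_nonneg c3f_inj mem_c3)
open Pool.Agent.Work.MP_db9399_lc (BL)
open Pool.Agent.Work.MP_db9399_lh (Cr Lh ce su kp io sp pt cr cy rf rx rr tj ty inM rP rR np nr eP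
  pr qr qe fq f0 ft Vq EndSX Vd UW VCol Rr Rf Jk Ub P0R PeR)
open Pool.Agent.Work.MP_db9399_lh.helper90.PEALL (pall NQ NQ_le NQ_ge Vk cell_le spl_le Rf_sub
  Rf_miss Rf_le nb_mono card_c3 card_kap DD DD_adj XX NB_Rf Vp mem_Vp renv one_part cut_mono)
open PEALL

universe u

theorem stmt_PEALL : Stmt_PEALL.{u} := by
  intro g gh gd δ cE n l hg hgh hgd hgd1 hδ hcE hl
  obtain ⟨η, hη⟩ : ∃ η : ℝ, η = min (δ / 10) (min (cE / 20) (1 / 100)) := ⟨_, rfl⟩
  have hη0 : 0 < η := by
    rw [hη]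
    refine lt_min (by linarith) (lt_min (by linarith) (by norm_num))
  have hη1 : η ≤ 1 / 100 := by
    rw [hη]
    exact (min_le_right _ _).trans (min_le_right _ _)
  have hηδ : 10 * η ≤ δ := by
    have : η ≤ δ / 10 := by
      rw [hη]
      exact min_le_left _ _
    linarith
  have hηc : 20 * η ≤ cE := by
    have : η ≤ cE / 20 := by
      rw [hη]
      exact (min_le_right _ _).trans (min_le_left _ _)
    linarith
  clear hη
  have hl1 : 1 ≤ l := by omega
  obtain ⟨dP, hPALL⟩ := pall.{u} η (gd / 40) hη0 hη1 (by linarith)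
  have hΛ : (0 : ℝ) < 3 * (2 * l + 1) := by positivity
  refine ⟨⌈1000 * (3 * (2 * (l : ℝ) + 1)) / η⌉₊, η * gd / (1500 * (3 * (2 * l + 1))),
    by positivity, ?_⟩
  intro K1 hK1
  have hK1' : 1000 * (3 * (2 * (l : ℝ) + 1)) / η ≤ (K1 : ℝ) + 1 := by
    have h1 : 1000 * (3 * (2 * (l : ℝ) + 1)) / η ≤ (K1 : ℝ) :=
      (Nat.le_ceil _).trans (by exact_mod_cast hK1)
    linarith
  refine ⟨⌈1000 * (((n : ℝ) + 1) * (3 * (2 * (l : ℝ) + 1))) / η⌉₊ + 1, ?_⟩
  intro m r K S hm
  have hm' : 1000 * (((n : ℝ) + 1) * (3 * (2 * (l : ℝ) + 1))) / η ≤ 2 * (m : ℝ) + 1 := by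
    have h1 : 1000 * (((n : ℝ) + 1) * (3 * (2 * (l : ℝ) + 1))) / η ≤ (m : ℝ) := by
      refine (Nat.le_ceil _).trans ?_
      have : ⌈1000 * (((n : ℝ) + 1) * (3 * (2 * (l : ℝ) + 1))) / η⌉₊ ≤ m := by omega
      exact_mod_cast this
    have h2 : (0 : ℝ) ≤ m := Nat.cast_nonneg _
    linarith
  have hN0 : (0 : ℝ) < 2 * m + 1 := by positivity
  rw [div_le_iff₀ hη0] at hm'
  rw [div_le_iff₀ hη0] at hK1'
  refine ⟨η / (1000 * (3 * (2 * l + 1))), η / 1000, η / (1000 * (3 * (2 * l + 1))),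
    2 * (n + 1) * max (⌈1000 * (3 * (2 * (l : ℝ) + 1)) / η⌉₊ + 1) (dP * (3 * (2 * l + 1))),
    by positivity, by positivity, by positivity, ?_⟩
  intro V _ G H Q Gc d D k w W1 ν c1 UH c0 EH tu lab e τ ι ρ e1 sy tp c wv Nd M O Kk hd hSit hCap
    hSX hH he1 hU hN hP hL hmw hrho hw1
  -- numbers
  have hHG : H ≤ G := hSit.cls.HG
  have hB : BL 0 (η / 1000) H D := bl0 hSit.bh
  have hLab := hSit.labH
  have hdD : (d : ℝ) ≤ 2 * ((n : ℝ) + 1) * D := hSit.cls.d2D (by linarith)
  have hn0 : (0 : ℝ) ≤ n := Nat.cast_nonneg _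
  have hmaxD : max (⌈1000 * (3 * (2 * (l : ℝ) + 1)) / η⌉₊ + 1) (dP * (3 * (2 * l + 1))) ≤ D := by
    have h1 : 2 * (n + 1) * max (⌈1000 * (3 * (2 * (l : ℝ) + 1)) / η⌉₊ + 1)
        (dP * (3 * (2 * l + 1))) ≤ 2 * (n + 1) * D := by
      refine hd.trans ?_
      exact_mod_cast hdD
    exact Nat.le_of_mul_le_mul_left h1 (by positivity)
  have hd1 : ⌈1000 * (3 * (2 * (l : ℝ) + 1)) / η⌉₊ + 1 ≤ D := (le_max_left _ _).trans hmaxD
  have hd2 : dP * (3 * (2 * l + 1)) ≤ D := (le_max_right _ _).trans hmaxD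
  have hdη : 1000 * (3 * (2 * (l : ℝ) + 1)) ≤ D * η := by
    have h1 : 1000 * (3 * (2 * (l : ℝ) + 1)) / η ≤ (D : ℝ) := by
      refine (Nat.le_ceil _).trans ?_
      have : ⌈1000 * (3 * (2 * (l : ℝ) + 1)) / η⌉₊ ≤ D := by omega
      exact_mod_cast this
    rwa [div_le_iff₀ hη0] at h1
  have hDpos : (0 : ℝ) < D := by
    have : 0 < D := by omega
    exact_mod_cast this
  obtain ⟨q, hq⟩ : ∃ q : ℝ, q = qe l D := ⟨_, rfl⟩
  have hq' : q * (3 * (2 * l + 1)) = 2 * D := by
    rw [hq]
    unfold qe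
    field_simp
  have hq0 : 0 < q := by
    rw [hq]
    unfold qe
    positivity
  obtain ⟨Λ, hΛe⟩ : ∃ Λ : ℝ, Λ = 3 * (2 * (l : ℝ) + 1) := ⟨_, rfl⟩
  rw [← hΛe] at hΛ hK1' hm' hdη hq'
  have A1 : 2 ≤ η / 1000 * q := by
    have h1 : 2000 * Λ ≤ η * q * Λ := by
      have h0 : η * (q * Λ) = η * (2 * D) := by rw [hq']
      linarith
    have h2 : 2000 ≤ η * q := le_of_mul_le_mul_right h1 hΛ
    linarith
  have A2 : η / (1000 * (3 * (2 * (l : ℝ) + 1))) * D ≤ η / 1000 * q := by
    rw [← hΛe]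
    have h1 : η / (1000 * Λ) * D = η / 2000 * q := by
      have : (D : ℝ) = q * Λ / 2 := by linarith
      rw [this]
      field_simp
      norm_num
    rw [h1]
    linarith [mul_pos hη0 hq0]
  have A5 : (d : ℝ) / (2 * m + 1) ≤ η / 1000 * q := by
    rw [div_le_iff₀ hN0]
    have h5 : q * (1000 * (((n : ℝ) + 1) * Λ)) ≤ q * ((2 * m + 1) * η) :=
      mul_le_mul_of_nonneg_left hm' hq0.le
    have h6 : 2 * ((n : ℝ) + 1) * D = ((n : ℝ) + 1) * (q * Λ) := by
      rw [hq']
      ring
    rw [h6] at hdD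
    linarith
  have A3 : (D : ℝ) / (2 * m + 1) ≤ η / 1000 * q := by
    rw [div_le_iff₀ hN0]
    have h5 : q * (1000 * (((n : ℝ) + 1) * Λ)) ≤ q * ((2 * m + 1) * η) :=
      mul_le_mul_of_nonneg_left hm' hq0.le
    have h6 : 0 ≤ (n : ℝ) * (q * Λ) := by positivity
    linarith
  have A4 : 2 * (D : ℝ) / (K1 + 1) ≤ η / 1000 * q := by
    have hK0 : (0 : ℝ) < (K1 : ℝ) + 1 := by positivity
    rw [div_le_iff₀ hK0]
    have h5 : q * (1000 * Λ) ≤ q * (((K1 : ℝ) + 1) * η) :=
      mul_le_mul_of_nonneg_left hK1' hq0.le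
    linarith
  -- the number of colours
  have A6 : (W1 : ℝ) * 24 ≤ gd / 40 * q ∧ (W1 : ℝ) ≤ η / 200 * q := by
    rw [← hΛe] at hw1
    have h1 : η * gd / (1500 * Λ) * D = η * gd * q / 3000 := by
      have : (D : ℝ) = q * Λ / 2 := by linarith
      rw [this]
      field_simp
      norm_num
    rw [h1] at hw1
    have h5 : η * gd * q ≤ η * q * (1 / 10) := by
      have : η * q * gd ≤ η * q * (1 / 10) := mul_le_mul_of_nonneg_left hgd1 (by positivity)
      linarith
    have h6 : η * gd * q ≤ gd * q * (1 / 100) := by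
      have : gd * q * η ≤ gd * q * (1 / 100) := mul_le_mul_of_nonneg_left hη1 (by positivity)
      linarith
    have h7 : 0 < gd * q := by positivity
    have h8 : 0 < η * q := by positivity
    constructor <;> linarith
  -- the degree
  obtain ⟨dR, hdR⟩ : ∃ dR : ℕ, dR = ⌈(1 + η / 100) * q⌉₊ := ⟨_, rfl⟩
  have hdR1 : (1 + η / 100) * q ≤ dR := by
    rw [hdR]
    exact Nat.le_ceil _
  have hdR2 : (dR : ℝ) ≤ (1 + 11 * η / 1000) * q := by
    have h1 : (dR : ℝ) < (1 + η / 100) * q + 1 := by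
      rw [hdR]
      exact Nat.ceil_lt_add_one (by positivity)
    linarith
  have hηq : 0 < η * q := by positivity
  have hdRq : q ≤ dR := by linarith
  have hηq2 : η * q ≤ 1 / 100 * q := mul_le_mul_of_nonneg_right hη1 hq0.le
  have hdRq2 : (dR : ℝ) ≤ 101 / 100 * q := by linarith
  have hηdR : η * q ≤ η * dR := mul_le_mul_of_nonneg_left hdRq hη0.le
  have hdR0 : (0 : ℝ) < dR := lt_of_lt_of_le hq0 hdRq
  have hdRP : dP ≤ dR := by
    have h1 : (dP : ℝ) * Λ ≤ D := by
      rw [hΛe]
      exact_mod_cast hd2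
    have h2 : (dP : ℝ) ≤ dR := by
      have h3 : (dP : ℝ) * Λ ≤ q * Λ := by linarith
      exact (le_of_mul_le_mul_right h3 hΛ).trans hdRq
    exact_mod_cast h2
  -- degrees in the reserve graph
  have hdeg : ∀ v, (nb (Rf H UH lab) v).card ≤ dR := by
    intro v
    have h1 : ((nb (Rf H UH lab) v).card : ℝ) ≤ ((NQ H lab v).card : ℝ) := by
      exact_mod_cast Finset.card_le_card (Rf_sub v)
    have h2 := NQ_le hl1 hB hLab v
    rw [← hq] at h2
    have h3 : ((nb (Rf H UH lab) v).card : ℝ) ≤ dR := by linarith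
    exact_mod_cast h3
  have hloss : ∀ v, v ∉ UH → ((NQ H lab v \ nb (Rf H UH lab) v).card : ℝ) ≤
      3 * η / 1000 * q := by
    intro v hv
    have h1 := (Finset.card_le_card (Rf_miss (G := H) (lab := lab) hv)).trans
      (Finset.card_union_le _ _)
    have h2 : (nb H v ∩ UH).card ≤ 2 :=
      (Finset.card_le_card (Finset.inter_subset_inter_right (nb_mono hHG v))).trans (hH.two v)
    have h3 := cell_le hB hLab (ce (lab v)) v
    have h4 : ((NQ H lab v \ nb (Rf H UH lab) v).card : ℝ) ≤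
        2 + ((nb H v ∩ Vk lab (ce (lab v))).card : ℝ) := by
      have : (NQ H lab v \ nb (Rf H UH lab) v).card ≤
        2 + (nb H v ∩ Vk lab (ce (lab v))).card := by omega
      exact_mod_cast this
    linarith
  have hNB : NB η (Rf H UH lab) dR (Hv η (Rf H UH lab) dR) :=
    NB_Rf hη0 hηc hq hq0 hSX (fun v hv => (hloss v hv).trans (by linarith)) hdR0 hη1 hdRq2 hdeg
  have hHv : ∀ v, v ∉ UH → v ∈ Hv η (Rf H UH lab) dR := by
    intro v hv
    unfold Hv
    rw [Finset.mem_filter]
    refine ⟨Finset.mem_univ _, ?_⟩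
    have h1 := NQ_ge hl1 hB hLab v
    rw [← hq] at h1
    have h2 := hloss v hv
    have h3 : ((NQ H lab v).card : ℝ) ≤
        ((NQ H lab v \ nb (Rf H UH lab) v).card : ℝ) +
          ((nb (Rf H UH lab) v).card : ℝ) := by
      have h4 : NQ H lab v ⊆
          (NQ H lab v \ nb (Rf H UH lab) v) ∪ nb (Rf H UH lab) v := by
        intro x hx
        rw [Finset.mem_union, Finset.mem_sdiff]
        by_cases h5 : x ∈ nb (Rf H UH lab) v
        · exact Or.inr h5
        · exact Or.inl ⟨hx, h5⟩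
      have := (Finset.card_le_card h4).trans (Finset.card_union_le _ _)
      exact_mod_cast this
    have h5 : (1 - η / 16) * (dR : ℝ) ≤ (1 - η / 16) * ((1 + 11 * η / 1000) * q) :=
      mul_le_mul_of_nonneg_left hdR2 (by linarith)
    linarith [mul_pos hη0 hηq]
  -- forbidden vertices
  have hXX : ∀ b ∈ (univ : Finset (Fin W1)).image e1, ∀ v,
      ((nb H v ∩ XX UH c0 tu e τ e1 tp wv Kk b).card : ℝ) ≤ 4 * η / 1000 * q := by
    intro b hb v
    obtain ⟨y, _, rfl⟩ := Finset.mem_image.mp hb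
    have h1 := XX_le hHG hB hLab hH he1 hU hL y v
    linarith
  have hDD : ∀ v, ((nb (DD M) v).card : ℝ) ≤ 4 * η / 1000 * q := by
    intro v
    have h1 := DD_deg hN hP v
    have h2 : ((nb (DD M) v).card : ℝ) ≤ 4 * (m * w) := by exact_mod_cast h1
    have h3 : (m : ℝ) * w ≤ d / (2 * m + 1) := by
      rw [le_div_iff₀ hN0]
      linarith
    linarith
  have hcardI : (((univ : Finset (Fin W1)).image e1).card : ℝ) ≤ W1 := by
    have h1 : ((univ : Finset (Fin W1)).image e1).card ≤ W1 := by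
      refine Finset.card_image_le.trans ?_
      rw [Finset.card_univ, Fintype.card_fin]
    exact_mod_cast h1
  -- the sets missed in the first rounds
  have hTf : ∀ i : ZMod 3, Fintype.card {p : Fin m × Fin w // ρ p.2 = i} =
      m * (univ.filter (fun s => ρ s = i)).card := by
    intro i
    rw [Fintype.card_subtype]
    have h1 : (univ.filter (fun p : Fin m × Fin w => ρ p.2 = i)) =
        (univ : Finset (Fin m)) ×ˢ (univ.filter (fun s => ρ s = i)) := by
      ext p
      rw [mem_product, mem_filter, mem_filter]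
      simp only [Finset.mem_univ, true_and]
    rw [h1, card_product, card_univ, Fintype.card_fin]
  have hlg : ∀ i : ZMod 3, Fintype.card {p : Fin m × Fin w // ρ p.2 = i} *
      (3 * (2 * m + 1)) ≤ d := by
    intro i
    rw [hTf i]
    have h1 := hrho i
    have : (((m * (univ.filter (fun s => ρ s = i)).card) * (3 * (2 * m + 1)) : ℕ) : ℝ) ≤
        (d : ℕ) := by
      push_cast
      linarith
    exact_mod_cast this
  obtain ⟨R, hR⟩ := hPALL (Rf H UH lab) dR k
    ((univ : Finset (Fin W1)).image e1) (DD M)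
    (XX UH c0 tu e τ e1 tp wv Kk)
    (univ.filter (fun v => v ∉ UH ∧ inM (lab v) ∧ ∀ x, v ∉ O x)) hdRP hdeg hNB
    (by
      have h3 : η / 200 * q ≤ η / 200 * dR := mul_le_mul_of_nonneg_left hdRq (by positivity)
      linarith [A6.2])
    (by
      have h3 : gd / 40 * q ≤ gd / 40 * dR := mul_le_mul_of_nonneg_left hdRq (by positivity)
      linarith [A6.1])
    (by
      intro v
      have h1 := hDD v
      linarith)
    (by
      intro b hb v
      have h1 : ((nb (Rf H UH lab) v ∩ XX UH c0 tu e τ e1 tp wv Kk b).card : ℝ) ≤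
          ((nb H v ∩ XX UH c0 tu e τ e1 tp wv Kk b).card : ℝ) := by
        exact_mod_cast Finset.card_le_card
          (Finset.inter_subset_inter_right (nb_mono Rf_le v))
      have h2 := hXX b hb v
      linarith)
    (by
      intro b hb DG C hDG _ hCrit hConn
      -- the part of `C`
      have hCne : C.Nonempty := by
        rw [Finset.nonempty_iff_ne_empty]
        intro h
        have h1 := hCrit.2.1
        rw [h, Finset.card_empty] at h1
        have : dR = 0 := by omega
        rw [this] at hdR0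
        simp at hdR0
      obtain ⟨v0, hv0⟩ := hCne
      obtain ⟨i, hi⟩ : ∃ i, i = pt (lab v0) := ⟨_, rfl⟩
      have hCi : ∀ v ∈ C, pt (lab v) = i := by
        rw [hi]
        exact one_part hConn hv0
      have hren : REnv H (Rf H UH lab \ DG) (qe l D) δ lab (eP l m r K K1 S i) (eR l)
          (Vp lab i \ XX UH c0 tu e τ e1 tp wv Kk b) ∅ := by
        refine renv (a1 := 4 * η / 1000 * q) (a2 := 3 * η / 1000 * q)
          (a3 := η / 100 * dR) i ?_ (hXX b hb) hloss hDG (by positivity) (by positivity) ?_ ?_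
        · intro x hx
          unfold XX
          rw [Finset.mem_union, Finset.mem_union]
          exact Or.inl (Or.inl hx)
        · rw [← hq]
          have h1 : η / 100 * dR ≤ η / 100 * (101 / 100 * q) :=
            mul_le_mul_of_nonneg_left hdRq2 (by positivity)
          have h2 : 10 * η * q ≤ δ * q := mul_le_mul_of_nonneg_right hηδ hq0.le
          linarith
        · rw [← hq]
          positivity
      have hCrit' : Crit (Rf H UH lab \ DG) dR (Vp lab i \ XX UH c0 tu e τ e1 tp wv Kk b)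
          ((Hv η (Rf H UH lab) dR ∩ Vp lab i) \ XX UH c0 tu e τ e1 tp wv Kk b) C := by
        refine ⟨?_, hCrit.2.1, ?_⟩
        · intro v hv
          have h1 := hCrit.1 hv
          rw [Finset.mem_sdiff] at h1 ⊢
          rw [Finset.mem_inter, mem_Vp]
          exact ⟨⟨h1.1, hCi v hv⟩, h1.2⟩
        · have h1 := cut_mono (F := Rf H UH lab \ DG) (C := C)
            (Finset.sdiff_subset_sdiff (Finset.subset_univ (Vp lab i))
              (subset_refl (XX UH c0 tu e τ e1 tp wv Kk b)))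
          have h2 := hCrit.2.2
          omega
      have hcap := hCap i (Rf H UH lab \ DG) (Vp lab i \ XX UH c0 tu e τ e1 tp wv Kk b)
        ((Hv η (Rf H UH lab) dR ∩ Vp lab i) \ XX UH c0 tu e τ e1 tp wv Kk b) C dR
        (Fintype.card {p : Fin m × Fin w // ρ p.2 = i})
        (fun a j => if h : j < Fintype.card {p : Fin m × Fin w // ρ p.2 = i} then
          O (a, ((Fintype.equivFin {p : Fin m × Fin w // ρ p.2 = i}).symm ⟨j, h⟩).1) else ∅) hren
        (by rw [← hq]; exact hdRq) (by rw [← hq]; exact hdRq2)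
        (Finset.sdiff_subset_sdiff Finset.inter_subset_right subset_rfl) hCrit' hConn (hlg i)
        (by
          intro a j hj
          simp only [dif_pos hj]
          have h1 := hP.spr (a, ((Fintype.equivFin {p : Fin m × Fin w // ρ p.2 = i}).symm
            ⟨j, hj⟩).1)
          have h2 := ((Fintype.equivFin {p : Fin m × Fin w // ρ p.2 = i}).symm ⟨j, hj⟩).2
          simp only at h1
          rw [h2] at h1
          exact h1)
      refine hcap.trans ?_
      have hsub : C.filter (fun v => inM (lab v) ∧ ∀ a,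
          ∀ j < Fintype.card {p : Fin m × Fin w // ρ p.2 = i},
          v ∉ (if h : j < Fintype.card {p : Fin m × Fin w // ρ p.2 = i} then
            O (a, ((Fintype.equivFin {p : Fin m × Fin w // ρ p.2 = i}).symm ⟨j, h⟩).1)
            else ∅)) ⊆
          C ∩ univ.filter (fun v => v ∉ UH ∧ inM (lab v) ∧ ∀ x, v ∉ O x) := by
        intro v hv
        rw [Finset.mem_filter] at hv
        rw [Finset.mem_inter, Finset.mem_filter]
        obtain ⟨hvC, hvW, hvO⟩ := hv
        refine ⟨hvC, Finset.mem_univ _, ?_, hvW, ?_⟩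
        · intro hvU
          have h1 := hCrit.1 hvC
          rw [Finset.mem_sdiff] at h1
          apply h1.2
          unfold XX
          rw [Finset.mem_union, Finset.mem_union]
          exact Or.inl (Or.inl hvU)
        · intro x hx
          obtain ⟨a, p⟩ := x
          have h0 : ρ p.2 = i := by
            have h1 := (hP.OU (a, p) v hx).2.2.1
            rw [hCi v hvC] at h1
            exact h1.symm
          obtain ⟨z, hz⟩ : ∃ z : {p : Fin m × Fin w // ρ p.2 = i}, z = ⟨p, h0⟩ := ⟨_, rfl⟩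
          have h1 := hvO a ((Fintype.equivFin {p : Fin m × Fin w // ρ p.2 = i}) z).val
            ((Fintype.equivFin {p : Fin m × Fin w // ρ p.2 = i}) z).isLt
          rw [dif_pos ((Fintype.equivFin {p : Fin m × Fin w // ρ p.2 = i}) z).isLt] at h1
          apply h1
          have h2 : (Fintype.equivFin {p : Fin m × Fin w // ρ p.2 = i}).symm
              ⟨((Fintype.equivFin {p : Fin m × Fin w // ρ p.2 = i}) z).val,
                ((Fintype.equivFin {p : Fin m × Fin w // ρ p.2 = i}) z).isLt⟩ = z :=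
            (Fintype.equivFin {p : Fin m × Fin w // ρ p.2 = i}).symm_apply_apply z
          rw [h2, hz]
          exact hx
      exact_mod_cast Finset.card_le_card hsub)
  -- the result
  have hI : ∀ y, e1 y ∈ (univ : Finset (Fin W1)).image e1 :=
    fun y => Finset.mem_image.mpr ⟨y, Finset.mem_univ _, rfl⟩
  have hXmem : ∀ y v, v ∈ XX UH c0 tu e τ e1 tp wv Kk (e1 y) ↔
      (v ∈ UH ∨ v ∈ UW UH c0 tu e τ e1 tp wv (e1 y)) ∨ (nb (Kk y) v).Nonempty := by
    intro y v
    unfold XX
    rw [Finset.mem_union, Finset.mem_union, Finset.mem_filter]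
    constructor
    · rintro (h | ⟨_, y', hy', h⟩)
      · exact Or.inl h
      · rw [he1 hy'] at h
        exact Or.inr h
    · rintro (h | h)
      · exact Or.inl h
      · exact Or.inr ⟨Finset.mem_univ _, y, rfl, h⟩
  have hOW : ∀ y, ∀ v ∈ R.O (e1 y), v ∉ UH ∧ inM (lab v) ∧ ∀ x, v ∉ O x := by
    intro y v hv
    exact (Finset.mem_filter.mp (hR (e1 y) (hI y) hv)).2
  refine ⟨fun y => R.M (e1 y), fun y => R.O (e1 y), ?_⟩
  exact
    { le := by
        intro y v v' h
        have h1 := (R.MD _ _ _ h).2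
        rw [hXmem] at h1
        push Not at h1
        exact ⟨R.Mle _ h, h1.1.2, Finset.not_nonempty_iff_eq_empty.mpr h1.2⟩
      mat := fun y => R.Mmat (e1 y)
      dis := by
        intro y y' hyy v v' h
        exact R.Md (e1 y) (e1 y') (fun h0 => hyy (he1 h0)) v v' h
      new := by
        intro y v v' h x hx
        exact (R.MD _ _ _ h).1 (DD_adj.mpr ⟨x, hx⟩)
      cov := by
        intro y v hvU hvW hvK hvO
        refine R.Mcov (e1 y) (hI y) v (hHv v hvU) ?_ hvO
        rw [hXmem]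
        rintro ((h | h) | h)
        · exact hvU h
        · exact hvW h
        · exact hvK h
      OW := fun y v hv => ⟨(hOW y v hv).1, (hOW y v hv).2.1⟩
      O1d := fun y y' hyy => R.Od (e1 y) (hI y) (e1 y') (hI y') (fun h0 => hyy (he1 h0))
      Od := by
        intro y x
        rw [Finset.disjoint_left]
        intro v hv hx
        exact (hOW y v hv).2.2 x hx }

end Pool.Agent.Work.MP_db9399_ot.helper90
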